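import Pool.Agent.Helper27.SP.Crisp

/-!
# Factorials modulo almost all primes, near special points

All primes `p ≤ x` but `O(x ^ (1 - ε))` have the following properties.

1. `n!` is not `1` or `-1` modulo `p` for any `n` within `p ^ (1/2 - ε)` of `0`, `p / 2` or `p`, except perhaps for
`n = 1`, `(p - 1) / 2`, `p - 2`, `p - 1`.
2. The same within `p ^ (1/4 - ε)` of `(p - 1) / 3`, `2 (p - 1) / 3`, `(p - 1) / 4` and `3 (p - 1) / 4`, if these are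
integers, except perhaps for the points themselves and their neighbours.
3. The factorials within `p ^ (1/3 - ε)` of `u p / b` are pairwise different modulo `p`, for all fractions `u / b` in
`[0, 1]` with `b ≤ B`.
4. The same near a root `m` modulo `p` of an irreducible polynomial `F` with degree and coefficients at most `B`, unless
`F = ± ((X + k + 1) ⋯ (X + k + a) - 1)` forces a coincidence.
-/

set_option autoImplicit false

namespace Pool.Agent.Results.MP_62614e_nt.AlmostAllPrimes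

open Finset Polynomial
open scoped Nat

theorem result (ε : ℝ) (hε : 0 < ε) (hε' : ε < 1 / 4) (B : ℕ) : ∃ K : ℝ, ∀ x : ℕ, 1 ≤ x →
    ∃ S : Finset ℕ, (S.card : ℝ) ≤ K * (x : ℝ) ^ (1 - ε) ∧ ∀ p : ℕ, p.Prime → p ≤ x → p ∉ S →
      -- (1) near `0`, `p / 2`, `p`
      (∀ n : ℕ, 1 < n → n + 2 < p → 2 * n + 1 ≠ p → (p : ℤ) ∣ (n ! : ℤ) ^ 2 - 1 →
        (p : ℝ) ^ (1 / 2 - ε) < n ∧ (p : ℝ) ^ (1 / 2 - ε) < |(n : ℝ) - p / 2| ∧
          (p : ℝ) ^ (1 / 2 - ε) < p - n) ∧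
      -- (2) near the multiples of `(p - 1) / 3` and `(p - 1) / 4`
      (∀ n c : ℕ, 3 * c = p - 1 ∨ 3 * c = 2 * (p - 1) ∨ 4 * c = p - 1 ∨ 4 * c = 3 * (p - 1) →
        2 ≤ |(n : ℤ) - c| → |(n : ℝ) - c| ≤ (p : ℝ) ^ (1 / 4 - ε) → 1 ≤ n → n < p →
          ¬ (p : ℤ) ∣ (n ! : ℤ) ^ 2 - 1) ∧
      -- (3) near `u p / b`
      (∀ b u n n' : ℕ, 1 ≤ b → b ≤ B → u ≤ b → Nat.Coprime u b → 1 ≤ n → n < n' → n' < p →
        |(n : ℝ) - u * p / b| ≤ (p : ℝ) ^ (1 / 3 - ε) →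
        |(n' : ℝ) - u * p / b| ≤ (p : ℝ) ^ (1 / 3 - ε) → ¬ (p : ℤ) ∣ (n' ! : ℤ) - n !) ∧
      -- (4) near the roots of a polynomial
      ∀ F : ℤ[X], Irreducible F → F.natDegree ≤ B → (∀ i, |F.coeff i| ≤ B) →
        ∀ m : ℤ, (p : ℤ) ∣ F.eval m → ∀ n n' : ℕ, n < n' → n' < p →
          |(n : ℝ) - m| ≤ (p : ℝ) ^ (1 / 3 - ε) → |(n' : ℝ) - m| ≤ (p : ℝ) ^ (1 / 3 - ε) →
          (p : ℤ) ∣ (n' ! : ℤ) - n ! →
          F = ∏ i ∈ range (n' - n), (X + C ((n : ℤ) - m + ((i : ℤ) + 1))) - 1 ∨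
          F = -(∏ i ∈ range (n' - n), (X + C ((n : ℤ) - m + ((i : ℤ) + 1))) - 1) :=
  Pool.Agent.Helper27.SP.crisp ε hε hε' B

end Pool.Agent.Results.MP_62614e_nt.AlmostAllPrimes
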