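import Pool.Agent.Helper7.FR.A6

/-!
MP_62614e_nt: the number of solutions of `n! ≡ lam (mod p)` in intervals, for almost all primes.
-/

set_option autoImplicit false

namespace Pool.Agent.Results.MP_62614e_nt.FewFactorialRoots

open scoped Nat

/-- For all `K > 0` and `x ≥ 4`, all but at most `√x + 2 (x / K) (1 + log x)` primes `p ≤ x`
have the following property: for every integer `lam` (in particular `lam = -1`) and every
interval `(M, M + N]` contained in `[1, p - 1]`, the number of `n` in the interval with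
`n! ≡ lam (mod p)` is at most `2 + (4 + K) (N ^ 4 / p) ^ (1 / 5)`. -/
theorem result (K : ℝ) (hK : 0 < K) (x : ℕ) (hx : 4 ≤ x) :
    (({p : ℕ | p.Prime ∧ p ≤ x ∧ ∃ (lam : ℤ) (M N : ℕ), M + N < p ∧
      2 + (4 + K) * ((N : ℝ) ^ 4 / p) ^ (1 / 5 : ℝ) <
        (((Finset.Ioc M (M + N)).filter fun n => (p : ℤ) ∣ (n ! : ℤ) - lam).card : ℝ)}.ncard : ℕ)
      : ℝ) ≤ √(x : ℝ) + 2 * (x / K) * (1 + Real.log x) := by
  classical
  have h := Pool.Agent.Helper7.FR.exceptional_card hK hx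
  have he : {p : ℕ | p.Prime ∧ p ≤ x ∧ ∃ (lam : ℤ) (M N : ℕ), M + N < p ∧
      2 + (4 + K) * ((N : ℝ) ^ 4 / p) ^ (1 / 5 : ℝ) <
        (((Finset.Ioc M (M + N)).filter fun n => (p : ℤ) ∣ (n ! : ℤ) - lam).card : ℝ)}
      = (Pool.Agent.Helper7.FR.exceptional K x : Set ℕ) := by
    ext p
    rw [Set.mem_ofPred_eq, Finset.mem_coe, Pool.Agent.Helper7.FR.exceptional, Finset.mem_filter,
      Pool.Agent.Helper7.FR.mem_primesUpTo, and_assoc]
    rfl
  rw [he, Set.ncard_coe_finset]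
  exact h

end Pool.Agent.Results.MP_62614e_nt.FewFactorialRoots
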